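import Pool.Agent.LibFsep.Basic

namespace Pool.Agent.Results.MP_1ca5ad_gt.BaireMeasure

open Set Topology Filter Pool.Agent.LibFsep MeasureTheory

universe u

theorem result :
    (∀ (X : Type u) [TopologicalSpace X] [MeasurableSpace X] (μ : Measure X)
      [IsProbabilityMeasure μ], (∀ f : X → ℝ, Continuous f → Measurable f) →
      (∀ (x : X) (ε : ENNReal), 0 < ε →
        ∃ f : X → ℝ, Continuous f ∧ f x = 0 ∧ μ {y | f y < 1} < ε) →
      ¬ FSeparable (Cp X)) ∧
    ¬ FSeparable (Cp Sorg) :=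
  ⟨fun X _ _ μ _ hm hc => not_fSeparable_of_measure X μ hm hc, sorg_not_fSeparable⟩

end Pool.Agent.Results.MP_1ca5ad_gt.BaireMeasure
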