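import Pool.Agent.LibFsep.Basic

namespace Pool.Agent.Results.MP_1ca5ad_gt.BelowB

open Set Topology Filter Pool.Agent.LibFsep
open scoped Cardinal

universe u

theorem relative {X : Type u} [TopologicalSpace X] (h : FSeparable (Cp X)) (Y : Set X)
    (hY : #Y < Cardinal.lift.{u} bounding) (A : Set (Cp X)) (hA : A.Countable) (f : Cp X)
    (hf : f ∈ closure A) :
    ∃ s : ℕ → Cp X, (∀ n, s n ∈ A) ∧
      ∀ y ∈ Y, Tendsto (fun n => (s n).1 y) atTop (𝓝 (f.1 y)) := by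
  obtain ⟨D, hD, hF⟩ := h
  let T : Cp X → Cp X := fun g => ⟨fun x => g.1 x - f.1 x, g.2.sub f.2⟩
  have h0 : zeroFn X ∈ closure (T '' A) := by
    rw [mem_closure_Cp] at hf ⊢
    intro F ε hε
    obtain ⟨g, hg, hgF⟩ := hf F ε hε
    exact ⟨T g, ⟨g, hg, rfl⟩, fun x hx => by simpa [T, zeroFn] using hgF x hx⟩
  obtain ⟨s, hs, hlim⟩ := selection hF hY (T '' A) (hA.image T) h0
  choose g hg hgs using hs
  refine ⟨g, hg, fun y hy => ?_⟩
  have h1 := hlim y hy
  have h2 := h1.add_const (f.1 y)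
  simp only [← hgs, T, sub_add_cancel, zero_add] at h2
  exact h2

theorem result :
    (∀ (X : Type u) [TopologicalSpace X], FSeparable (Cp X) →
      ∀ Y : Set X, #Y < Cardinal.lift.{u} bounding →
      ∀ A : Set (Cp X), A.Countable → ∀ f ∈ closure A,
        ∃ s : ℕ → Cp X, (∀ n, s n ∈ A) ∧
          ∀ y ∈ Y, Tendsto (fun n => (s n).1 y) atTop (𝓝 (f.1 y))) ∧
    (∀ (X : Type u) [TopologicalSpace X], StronglySeqSeparable (Cp X) → FSeparable (Cp X)) ∧
    (∀ (X : Type u) [TopologicalSpace X], #X < Cardinal.lift.{u} bounding →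
      (FSeparable (Cp X) ↔ StronglySeqSeparable (Cp X))) :=
  ⟨fun _ _ h Y hY A hA f hf => relative h Y hY A hA f hf, fun _ _ h => fSeparable_of_sss h,
    fun _ _ hX => ⟨sss_of_fSeparable hX, fSeparable_of_sss⟩⟩

end Pool.Agent.Results.MP_1ca5ad_gt.BelowB
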