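import Pool.Agent.LibFS55.V5
import Pool.Agent.LibFS55.L5
import Pool.Agent.LibFS55.R11

/-!
# Q1 is independent of ZFC

`Q1` (file `LibFS55/Phi.lean`) is the statement asked about: for every Tychonoff space `X`, if
`C_p(X)` is `F`-separable, then `C_p(X)` is Frechet-Urysohn. `sentence1 B` and `sentence2 B` (file
`LibFS55/Sent.lean`) are the truth values, in the Boolean-valued universe `V^B`, of the statements
`Phi1` and `Phi2` (file `LibFS55/Phi.lean`).
-/

set_option autoImplicit false

namespace Pool.Agent.Results.MP_1ca5ad_gt.FullIndependence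

open Pool.Agent.LibFS55

universe u

/-- `Phi1` is true in some Boolean-valued universe, and `Phi2` is true in another one, so both are
consistent with ZFC; the first implies `Q1`, and the second implies the negation of `Q1`. -/
theorem result :
    ((∃ (B : Type) (_ : CompleteBooleanAlgebra B) (_ : Nontrivial B), sentence1 B = ⊤) ∧
      (Phi1 → Q1.{u})) ∧
    ((∃ (B : Type) (_ : CompleteBooleanAlgebra B) (_ : Nontrivial B), sentence2 B = ⊤) ∧
      (Phi2 → ¬ Q1.{u})) := by
  refine ⟨⟨?_, q1_of_phi1⟩, ⟨?_, not_q1_of_phi2⟩⟩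
  · obtain ⟨B, h1, h2, M⟩ := exists_modelQ
    exact ⟨B, h1, h2, sentence1_eq_top M⟩
  · obtain ⟨B, h1, h2, M⟩ := exists_modelP
    exact ⟨B, h1, h2, sentence2_eq_top M⟩

end Pool.Agent.Results.MP_1ca5ad_gt.FullIndependence
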